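import Pool.Agent.Helper65.KPZ.St

/-!
# Project KP, chapter Z, module ZAF
-/

set_option autoImplicit false

namespace Pool.Agent.Helper32.KPZ

open Pool.Agent.Helper52.KP Pool.Agent.Helper67.NO Pool.Agent.Helper65.KPZ
open scoped LaurentPolynomial

universe u

private theorem zaf_mul {g : Type u} [LieRing g] [LieAlgebra ℂ g] [FiniteDimensional ℂ g] (x₀ : g)
    (a b : ℕ) (f f' : OO x₀ → ℂ) (hf : f ∈ Reg x₀ a) (hf' : f' ∈ Reg x₀ b) :
    f * f' ∈ Reg x₀ (a + b) := by
  obtain ⟨h1, h2⟩ := hf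
  obtain ⟨h1', h2'⟩ := hf'
  refine ⟨fun x => ?_, fun x y c hc hy => ?_⟩
  · obtain ⟨p, q, hq, h⟩ := h1 x
    obtain ⟨p', q', hq', h'⟩ := h1' x
    refine ⟨p * p', q * q', ?_, fun y => ?_⟩
    · simp only [pev, map_mul] at hq hq' ⊢
      exact mul_ne_zero hq hq'
    · have e1 := h y
      have e2 := h' y
      simp only [pev, map_mul, Pi.mul_apply] at e1 e2 ⊢
      rw [← e1, ← e2]
      ring
  · simp only [Pi.mul_apply, h2 x y c hc hy, h2' x y c hc hy]
    ring

theorem hZAF : StZAF.{u} := by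
  intro g _ _ _ x₀ hInd h0 hd r F hr hT
  have hpos : 0 < hdim x₀ * r := Nat.mul_pos hd hr
  refine ⟨?_, ?_, ?_, hT.le, hT.anti, hT.mul, hT.exh, hT.sep, ?_, hT.fg, hT.normal.1, hT.normal.2⟩
  · intro s f hf hs k hk
    have hinj : Set.InjOn (fun k : ℕ => hdim x₀ * r * k) (s : Set ℕ) := by
      intro a _ b _ hab
      exact Nat.eq_of_mul_eq_mul_left hpos hab
    have hdiv : ∀ k : ℕ, hdim x₀ * r * k / (hdim x₀ * r) = k := fun k =>
      Nat.mul_div_cancel_left k hpos
    have h1 := hInd (s.image fun k : ℕ => hdim x₀ * r * k) (fun m => f (m / (hdim x₀ * r))) ?_ ?_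
      (hdim x₀ * r * k) (Finset.mem_image_of_mem _ hk)
    · skip
      rw [hdiv] at h1
      exact h1
    · intro m hm
      obtain ⟨a, ha, rfl⟩ := Finset.mem_image.1 hm
      rw [hdiv]
      exact hf a ha
    · rw [Finset.sum_image hinj]
      rw [← hs]
      refine Finset.sum_congr rfl fun a _ => ?_
      rw [hdiv]
  · skip
    rw [mul_zero]
    exact h0
  · intro k k' f f' hf hf'
    have h1 := zaf_mul x₀ _ _ f f' hf hf'
    rw [mul_add]
    exact h1
  · skip
    rw [mul_zero]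
    exact hT.zero

end Pool.Agent.Helper32.KPZ
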